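import Pool.Agent.MP_66cee2_co.H80.Lift

/-
From a dense open family of tiles to a map on the whole space.
-/

namespace Pool.Agent.MP_66cee2_co.H17T

open Filter Topology Metric Set Pool.Agent.MP_66cee2_co.H80

theorem unit_ind {d : ℕ} (hd : 2 ≤ d) {p : E d → Prop} (h0 : p 0)
    (hs : ∀ x u, ‖u‖ = 1 → p x → p (x + u)) (x : E d) : p x := by
  have key : ∀ N : ℕ, ∀ x : E d, ‖x‖ ≤ N → p x := by
    intro N
    induction N with
    | zero =>
      intro x hx
      have : x = 0 := by simpa using hx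
      rwa [this]
    | succ N ih =>
      intro x hx
      have hN : (0 : ℝ) < (N : ℝ) + 1 := by positivity
      push_cast at hx
      have n1 : ‖((N : ℝ) + 1)⁻¹ • x‖ ≤ 1 := by
        rw [norm_smul, Real.norm_eq_abs, abs_of_pos (inv_pos.2 hN), inv_mul_le_iff₀ hN]
        linarith
      have n2 : ‖(N / ((N : ℝ) + 1)) • x‖ ≤ N := by
        rw [norm_smul, Real.norm_eq_abs, abs_of_nonneg (by positivity), div_mul_eq_mul_div,
          div_le_iff₀ hN]
        exact mul_le_mul_of_nonneg_left hx (by positivity)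
      obtain ⟨u, v, hu, hv, e⟩ := two_units hd _ (n1.trans (by norm_num))
      have e2 : x = (N / ((N : ℝ) + 1)) • x + u + v := by
        rw [add_assoc, e, ← add_smul]
        have : (N / ((N : ℝ) + 1)) + ((N : ℝ) + 1)⁻¹ = 1 := by field_simp
        rw [this, one_smul]
      rw [e2]
      exact hs _ _ hv (hs _ _ hu (ih _ n2))
  obtain ⟨N, hN⟩ := exists_nat_ge ‖x‖
  exact key N x hN

theorem back {d n : ℕ} (hd : 2 ≤ d) {Z : Set (E n)} (hZ : IsClosed Z) {O : ℕ → Set (E d)}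
    {e : ℕ → E n} (h1 : ∀ k, IsOpen (O k)) (h2 : ∀ k, e k ∈ Z) (h3 : Dense (⋃ k, O k))
    (h4 : ∀ k k' y z, y ∈ O k → z ∈ O k' → ‖y - z‖ = 1 → ‖e k - e k'‖ = 1)
    (h5 : ∀ k k' y, y ∈ O k → y ∈ O k' → k = k') :
    ∃ f : E d → E n, (∀ x, f x ∈ Z) ∧ (∀ x y, ‖x - y‖ = 1 → ‖f x - f y‖ = 1) ∧
      ∀ k, ∀ x ∈ O k, f x = e k := by
  classical
  obtain ⟨y₀, hy₀⟩ := h3.nonempty
  obtain ⟨k₀, hk₀⟩ := mem_iUnion.1 hy₀
  have hl : ∀ y : E d, ∃ k, y ∈ ⋃ k, O k → y ∈ O k := by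
    intro y
    by_cases hy' : y ∈ ⋃ k, O k
    · obtain ⟨k, hk⟩ := mem_iUnion.1 hy'
      exact ⟨k, fun _ => hk⟩
    · exact ⟨0, fun h => absurd h hy'⟩
  choose l l1 using hl
  have nb : (residual (E d) ⊓ 𝓝 (0 : E d)).NeBot := by
    rw [inf_neBot_iff]
    intro s hs t ht
    obtain ⟨x, hx⟩ := mem_closure_iff_nhds.1 (dense_of_mem_residual hs 0) t ht
    exact ⟨x, hx.2, hx.1⟩
  set U := Ultrafilter.of (residual (E d) ⊓ 𝓝 (0 : E d)) with hU
  have le : (U : Filter (E d)) ≤ residual (E d) ⊓ 𝓝 (0 : E d) := Ultrafilter.of_le _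
  have g1 : ∀ x : E d, ∀ᶠ t in U, x + t ∈ O (l (x + t)) := by
    intro x
    have op : IsOpen ((fun t => x + t) ⁻¹' ⋃ k, O k) :=
      (isOpen_iUnion h1).preimage (by fun_prop)
    have de : Dense ((fun t => x + t) ⁻¹' ⋃ k, O k) :=
      h3.preimage (Homeomorph.addLeft x).isOpenMap
    filter_upwards [le.trans inf_le_left (residual_of_dense_open op de)] with t ht
    exact l1 _ ht
  have g2 : ∀ k, ∀ x ∈ O k, ∀ᶠ t in U, e (l (x + t)) = e k := by
    intro k x hx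
    have : ∀ᶠ t in 𝓝 (0 : E d), x + t ∈ O k := by
      have c : Continuous fun t : E d => x + t := by fun_prop
      exact c.continuousAt.preimage_mem_nhds (by simpa using (h1 k).mem_nhds hx)
    filter_upwards [le.trans inf_le_right this, g1 x] with t ht ht'
    rw [h5 _ _ _ ht' ht]
  have g3 : ∀ x y : E d, ‖x - y‖ = 1 → ∀ᶠ t in U, ‖e (l (x + t)) - e (l (y + t))‖ = 1 := by
    intro x y hxy
    filter_upwards [g1 x, g1 y] with t a b
    exact h4 _ _ _ _ a b (by rwa [add_sub_add_right_eq_sub])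
  have g4 : ∀ x : E d, ∃ C : ℝ, ∀ᶠ t in U, ‖e (l (y₀ + x + t))‖ ≤ C := by
    refine unit_ind hd ⟨‖e k₀‖, ?_⟩ fun x u hu ⟨C, hC⟩ => ⟨C + 1, ?_⟩
    · filter_upwards [g2 k₀ y₀ hk₀] with t ht
      rw [add_zero, ht]
    · filter_upwards [hC, g3 (y₀ + (x + u)) (y₀ + x) (by simpa using hu)] with t a b
      have := norm_le_norm_add_norm_sub' (e (l (y₀ + (x + u) + t))) (e (l (y₀ + x + t)))
      linarith
  have g5 : ∀ x : E d, ∃ a : E n, Tendsto (fun t => e (l (x + t))) U (𝓝 a) := by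
    intro x
    obtain ⟨C, hC⟩ := g4 (x - y₀)
    rw [add_sub_cancel] at hC
    obtain ⟨a, -, ha⟩ := (isCompact_closedBall (0 : E n) C).ultrafilter_le_nhds
      (U.map fun t => e (l (x + t)))
      (le_principal_iff.2 (hC.mono fun t ht => mem_closedBall_zero_iff.2 ht))
    exact ⟨a, ha⟩
  choose f hf using g5
  exact ⟨f, fun x => hZ.mem_of_tendsto (hf x) (Eventually.of_forall fun t => h2 _), fun x y hxy =>
    tendsto_nhds_unique ((hf x).sub (hf y)).norm
      (tendsto_const_nhds.congr' ((g3 x y hxy).mono fun t ht => ht.symm)),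
    fun k x hx => tendsto_nhds_unique (hf x)
      (tendsto_const_nhds.congr' ((g2 k x hx).mono fun t ht => ht.symm))⟩

theorem disj {d : ℕ} {O : ℕ → Set (E d)} (h1 : ∀ k, IsOpen (O k)) (h3 : Dense (⋃ k, O k)) :
    ∃ O' : ℕ → Set (E d), (∀ k, IsOpen (O' k)) ∧ (∀ k, O' k ⊆ O k) ∧ Dense (⋃ k, O' k) ∧
      ∀ k k' y, y ∈ O' k → y ∈ O' k' → k = k' := by
  classical
  refine ⟨fun k => O k \ closure (⋃ j < k, O j), fun k => (h1 k).sdiff isClosed_closure,
    fun k => diff_subset, ?_, fun k k' y a b => ?_⟩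
  · refine dense_iff_inter_open.2 fun W hW hn => ?_
    have ex : ∃ k, (W ∩ O k).Nonempty := by
      obtain ⟨x, h, hx⟩ := h3.inter_open_nonempty W hW hn
      obtain ⟨k, hk⟩ := mem_iUnion.1 hx
      exact ⟨k, x, h, hk⟩
    obtain ⟨x, hx, hk⟩ := Nat.find_spec ex
    refine ⟨x, hx, mem_iUnion.2 ⟨Nat.find ex, hk, fun hc => ?_⟩⟩
    obtain ⟨z, hz, hz'⟩ := mem_closure_iff.1 hc W hW hx
    obtain ⟨j, hj, hzj⟩ := mem_iUnion₂.1 hz'
    exact Nat.find_min ex hj ⟨z, hz, hzj⟩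
  · rcases lt_trichotomy k k' with h | h | h
    · exact absurd (subset_closure (mem_iUnion₂.2 ⟨k, h, a.1⟩)) b.2
    · exact h
    · exact absurd (subset_closure (mem_iUnion₂.2 ⟨k', h, b.1⟩)) a.2

end Pool.Agent.MP_66cee2_co.H17T
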