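import Pool.Agent.MP_66cee2_co.H17T.Back
import Pool.Agent.MP_66cee2_co.H54.FamG
import Pool.Agent.MP_66cee2_co.ME.Main
import Pool.Agent.MP_66cee2_co.D.Dich
import Pool.Agent.MP_66cee2_co.XJ.App
import Pool.Agent.MP_66cee2_co.XT.BR

/-
Maps into a closed countable set come from dense open families of tiles.
-/

namespace Pool.Agent.MP_66cee2_co.H17T

open MeasureTheory Filter Topology Metric Set Pool.Agent.MP_66cee2_co.X

theorem lift_inj {n : ℕ} {u v : E n} (h : lift u = lift v) : u = v := by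
  ext i
  exact congrFun h (Sum.inl i)

theorem forth {d n : ℕ} (hd : 3 ≤ d) {Z : Set (E n)} (hZ : IsClosed Z) (hc : Z.Countable)
    {f : E d → E n} (hfZ : ∀ x, f x ∈ Z) (hf : ∀ x y, ‖x - y‖ = 1 → ‖f x - f y‖ = 1) :
    ∃ O : E n → Set (E d), (∀ v, IsOpen (O v)) ∧ (∀ v, v ∉ Z → O v = ∅) ∧ Dense (⋃ v, O v) ∧
      ∀ v v' y z, y ∈ O v → z ∈ O v' → ‖y - z‖ = 1 → ‖v - v'‖ = 1 := by
  have hne : ∃ x y, ‖f x - f y‖ ≠ ‖x - y‖ := by
    by_contra hn
    push Not at hn
    have inj : Function.Injective f := fun x y e => by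
      have := hn x y
      rwa [e, sub_self, norm_zero, eq_comm, norm_eq_zero, sub_eq_zero] at this
    have c1 : (univ : Set (E d)).Countable :=
      (hc.preimage_of_injOn inj.injOn).mono fun x _ => hfZ x
    have : Nonempty (Fin d) := ⟨⟨0, by omega⟩⟩
    have c2 := c1.measure_zero (volume : Measure (E d))
    exact (isOpen_univ.measure_pos volume univ_nonempty).ne' c2
  obtain ⟨g, gm, gZ, gu, -⟩ := ME.main d n (by omega) f hf hne
  have gZ' : ∀ x, g x ∈ Z := fun x =>
    closure_minimal (range_subset_iff.2 hfZ) hZ (gZ x)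
  set g' := gm.mk g with hg'
  have m' : Measurable g' := gm.measurable_mk
  have e' : ∀ᵐ x, g x = g' x := gm.ae_eq_mk
  have mV : Measurable fun x => lift (g' x) := XT.BRA.cont_lift.measurable.comp m'
  have : Countable Z := hc.to_subtype
  obtain ⟨O, hO, hP⟩ := H54.famG3 hd (L := Unit) (fun _ x => lift (g' x))
    (fun w => ∃ v ∈ Z, lift v = w) (fun _ => mV) (fun _ => by
      have h1 : ∀ᵐ x : E d, ∀ p : Z, x ∈ g' ⁻¹' {p.1} →
          Small fun _ => {η | x + η ∉ g' ⁻¹' {p.1}} :=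
        ae_all_iff.2 fun p => app_dens d _ (m' (measurableSet_singleton _))
      filter_upwards [h1, e'] with x hx ex K
      refine ⟨0, small_iff.2 ((small_iff.1 (hx ⟨g x, gZ' x⟩ ex.symm)).mono' ?_)⟩
      intro τ η hη hm
      have e : g' (x + η) = g' x := (mem_singleton_iff.1 hm).trans ex
      simp [e] at hη)
    (fun _ _ => D.Dichx.ae_of_all (by omega) (D.Dichx.meas_lz mV) fun w hw => by
      filter_upwards [e', (measurePreserving_add_right volume w).quasiMeasurePreserving.ae e']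
        with x a b
      rw [lz_lift, ← a, ← b, gu x (x + w) (by simpa using hw)]
      norm_num)
    (by
      filter_upwards [e'] with y a
      refine ⟨lift (g' y), ⟨g y, gZ' y, by rw [a]⟩, ?_, Submodule.subset_span ⟨(), rfl⟩⟩
      rw [lz_lift, sub_self, norm_zero]
      norm_num)
  refine ⟨fun v => O (lift v), fun v => hO.opn _, fun v hv => ?_,
    hO.dense.mono fun y hy => ?_, fun v v' y z hy hz h => ?_⟩
  · by_contra hn
    obtain ⟨v', h1, h2⟩ := hP _ (nonempty_iff_ne_empty.2 hn)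
    exact hv (lift_inj h2 ▸ h1)
  · obtain ⟨w, hw⟩ := mem_iUnion.1 hy
    obtain ⟨v, -, rfl⟩ := hP w ⟨y, hw⟩
    exact mem_iUnion.2 ⟨v, hw⟩
  · have := hO.orth _ _ y z hy hz h
    rw [lz_lift] at this
    have h0 := norm_nonneg (v - v')
    nlinarith

theorem main (d n : ℕ) (hd : 3 ≤ d) (f : E d → E n)
    (hf : ∀ x y, ‖x - y‖ = 1 → ‖f x - f y‖ = 1) (hc : (closure (range f)).Countable) :
    ∃ g : E d → E n, (∀ x, g x ∈ closure (range f)) ∧ (∀ x y, ‖x - y‖ = 1 → ‖g x - g y‖ = 1) ∧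
      Dense {x | ∀ᶠ y in 𝓝 x, g y = g x} := by
  obtain ⟨O, h1, h2, h3, h4⟩ := forth hd isClosed_closure hc
    (fun x => subset_closure (mem_range_self x)) hf
  obtain ⟨e, he⟩ := hc.exists_eq_range ⟨f 0, subset_closure (mem_range_self 0)⟩
  have h3' : Dense (⋃ k, O (e k)) := h3.mono fun y hy => by
    obtain ⟨v, hv⟩ := mem_iUnion.1 hy
    have : v ∈ range e := by
      by_contra hn
      rw [h2 v (he ▸ hn)] at hv
      exact hv
    obtain ⟨k, rfl⟩ := this
    exact mem_iUnion.2 ⟨k, hv⟩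
  obtain ⟨O', a1, a2, a3, a4⟩ := disj (fun k => h1 (e k)) h3'
  obtain ⟨g, b1, b2, b3⟩ := back (by omega) isClosed_closure (e := e) a1
    (fun k => he ▸ mem_range_self k) a3
    (fun k k' y z hy hz h => h4 _ _ y z (a2 k hy) (a2 k' hz) h) a4
  refine ⟨g, b1, b2, a3.mono fun x hx => ?_⟩
  obtain ⟨k, hk⟩ := mem_iUnion.1 hx
  filter_upwards [(a1 k).mem_nhds hk] with y hy
  rw [b3 k y hy, b3 k x hk]

end Pool.Agent.MP_66cee2_co.H17T
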